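import Pool.Agent.H51.EI.TargetsB

set_option autoImplicit false

open Polynomial Finset Pool.Agent.H51.EI

namespace Pool.Agent.H6.EI.EVD

theorem pf_EVD : T_EVD := by
  intro O X0 π J g x
  have h : ∀ P : (↥O)[X], ev P x = (Polynomial.eval₂RingHom O.subtype x) P := by
    intro P
    simp [ev, toC, Polynomial.eval_map]
  rw [h, DD, RingHom.map_det]
  congr 1
  ext a b
  simp [h]

end Pool.Agent.H6.EI.EVD
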